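import Pool.Agent.Helper54.NCM.Coprod

/-!
# An additive invariant of dg categories with `U(k) = k`

`U(A)` is the zeroth cocentre (trace space) of the homotopy category `H⁰(A)`, that is
`(⊕_X H⁰ End(X)) / (g f - f g)`.  It is a functor from dg categories to `k`-vector spaces which
preserves finite coproducts, inverts Morita equivalences and sends the unit to `k`.
-/

open CategoryTheory CategoryTheory.Limits MonoidalCategory
open scoped DirectSum

namespace Pool.Agent.Helper86.NCM

open Pool.Agent.Helper54.NCM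

variable {k : Type} [Field k]

/-! ## The homotopy category -/

/-- degree zero cycles -/
abbrev Z (A : DGCat k) (X Y : A.Obj) : Submodule k (A.Hom X Y 0) :=
  LinearMap.ker (A.d (zero_add 1) : A.Hom X Y 0 →ₗ[k] A.Hom X Y 1)

/-- degree zero boundaries -/
abbrev Bd (A : DGCat k) (X Y : A.Obj) : Submodule k (Z A X Y) :=
  (LinearMap.range (A.d (neg_add_cancel 1) : A.Hom X Y (-1) →ₗ[k] A.Hom X Y 0)).comap
    (Z A X Y).subtype

/-- `H⁰(A)(X, Y)` -/
def H (A : DGCat k) (X Y : A.Obj) : Type := Z A X Y ⧸ Bd A X Y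

instance (A : DGCat k) (X Y : A.Obj) : AddCommGroup (H A X Y) :=
  inferInstanceAs (AddCommGroup (Z A X Y ⧸ Bd A X Y))
instance (A : DGCat k) (X Y : A.Obj) : Module k (H A X Y) :=
  inferInstanceAs (Module k (Z A X Y ⧸ Bd A X Y))

lemma d_comp_zero (A : DGCat k) {X Y W : A.Obj} {g : A.Hom Y W 0} {f : A.Hom X Y 0}
    (hg : A.d (zero_add 1) g = 0) (hf : A.d (zero_add 1) f = 0) :
    A.d (zero_add 1) (A.comp (add_zero 0) g f) = 0 := by
  rw [A.leibniz (add_zero 0) (zero_add 1) (zero_add 1) (zero_add 1) (add_zero 1) (zero_add 1),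
    hg, hf]
  simp

/-- composition of cycles -/
def zcomp (A : DGCat k) {X Y W : A.Obj} : Z A Y W →ₗ[k] Z A X Y →ₗ[k] Z A X W :=
  LinearMap.mk₂ k (fun g f => ⟨A.comp (add_zero 0) g.1 f.1, d_comp_zero A g.2 f.2⟩)
    (fun a b c => Subtype.ext (by simp))
    (fun r a b => Subtype.ext (by simp))
    (fun a b c => Subtype.ext (by simp))
    (fun r a b => Subtype.ext (by simp))

@[simp] lemma zcomp_coe (A : DGCat k) {X Y W : A.Obj} (g : Z A Y W) (f : Z A X Y) :
    (zcomp A g f : A.Hom X W 0) = A.comp (add_zero 0) g.1 f.1 := rfl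

lemma mem_Bd {A : DGCat k} {X Y : A.Obj} {f : Z A X Y} :
    f ∈ Bd A X Y ↔ ∃ t, A.d (neg_add_cancel 1) t = f.1 := Iff.rfl

lemma zcomp_mem_left (A : DGCat k) {X Y W : A.Obj} {g : Z A Y W} (f : Z A X Y)
    (hg : g ∈ Bd A Y W) : zcomp A g f ∈ Bd A X W := by
  obtain ⟨t, ht⟩ := mem_Bd.1 hg
  refine mem_Bd.2 ⟨A.comp (add_zero (-1)) t f.1, ?_⟩
  rw [A.leibniz (add_zero (-1)) (neg_add_cancel 1) (zero_add 1) (neg_add_cancel 1) (add_zero 0)
    (neg_add_cancel 1), ht, show A.d (zero_add 1) f.1 = 0 from f.2]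
  simp

lemma zcomp_mem_right (A : DGCat k) {X Y W : A.Obj} (g : Z A Y W) {f : Z A X Y}
    (hf : f ∈ Bd A X Y) : zcomp A g f ∈ Bd A X W := by
  obtain ⟨t, ht⟩ := mem_Bd.1 hf
  refine mem_Bd.2 ⟨A.comp (zero_add (-1)) g.1 t, ?_⟩
  rw [A.leibniz (zero_add (-1)) (zero_add 1) (neg_add_cancel 1) (neg_add_cancel 1)
    (add_neg_cancel 1) (add_zero 0), ht, show A.d (zero_add 1) g.1 = 0 from g.2]
  simp

/-- class of a cycle -/
def hmk (A : DGCat k) {X Y : A.Obj} : Z A X Y →ₗ[k] H A X Y := (Bd A X Y).mkQ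

lemma hmk_surj (A : DGCat k) {X Y : A.Obj} (x : H A X Y) : ∃ f, hmk A f = x :=
  Submodule.mkQ_surjective _ x

lemma hmk_eq_zero (A : DGCat k) {X Y : A.Obj} {f : Z A X Y} : hmk A f = 0 ↔ f ∈ Bd A X Y :=
  Submodule.Quotient.mk_eq_zero _

/-- maps out of `H⁰` -/
def hlift (A : DGCat k) {X Y : A.Obj} {W : Type} [AddCommGroup W] [Module k W]
    (φ : Z A X Y →ₗ[k] W) (h : ∀ f ∈ Bd A X Y, φ f = 0) : H A X Y →ₗ[k] W :=
  (Bd A X Y).liftQ φ h

lemma hlift_mk (A : DGCat k) {X Y : A.Obj} {W : Type} [AddCommGroup W] [Module k W]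
    (φ : Z A X Y →ₗ[k] W) (h : ∀ f ∈ Bd A X Y, φ f = 0) (f : Z A X Y) :
    hlift A φ h (hmk A f) = φ f := rfl

lemma h_ext {A : DGCat k} {X Y : A.Obj} {W : Type} [AddCommGroup W] [Module k W]
    {φ ψ : H A X Y →ₗ[k] W} (h : ∀ f, φ (hmk A f) = ψ (hmk A f)) : φ = ψ := by
  ext x
  obtain ⟨f, rfl⟩ := hmk_surj A x
  exact h f

/-- composition in `H⁰(A)` -/
def hcomp (A : DGCat k) {X Y W : A.Obj} : H A Y W →ₗ[k] H A X Y →ₗ[k] H A X W :=
  hlift A
    { toFun := fun g => hlift A (hmk A ∘ₗ zcomp A g) (fun f hf =>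
        (hmk_eq_zero A).2 (zcomp_mem_right A g hf))
      map_add' := fun g g' => by
        refine h_ext fun f => ?_
        simp [hlift_mk]
      map_smul' := fun c g => by
        refine h_ext fun f => ?_
        simp [hlift_mk] } (fun g hg => by
        refine h_ext fun f => ?_
        exact (hmk_eq_zero A).2 (zcomp_mem_left A f hg))

lemma hcomp_mk (A : DGCat k) {X Y W : A.Obj} (g : Z A Y W) (f : Z A X Y) :
    hcomp A (hmk A g) (hmk A f) = hmk A (zcomp A g f) := rfl

lemma d_one (A : DGCat k) (X : A.Obj) : A.d (zero_add 1) (A.one X) = 0 := by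
  have h := A.leibniz (add_zero 0) (zero_add 1) (zero_add 1) (zero_add 1) (add_zero 1)
    (zero_add 1) (A.one X) (A.one X)
  have h1 : A.comp (add_zero 0) (A.one X) (A.one X) = A.one X := A.comp_one (A.one X)
  have h2 : A.comp (add_zero 1) (A.d (zero_add 1) (A.one X)) (A.one X) =
    A.d (zero_add 1) (A.one X) := A.comp_one _
  have h3 : A.comp (zero_add 1) (A.one X) (A.d (zero_add 1) (A.one X)) =
    A.d (zero_add 1) (A.one X) := A.one_comp _
  rw [h1, h2, h3] at h
  simpa using h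

/-- identity in `H⁰(A)` -/
def hone (A : DGCat k) (X : A.Obj) : H A X X := hmk A ⟨A.one X, d_one A X⟩

lemma hone_comp (A : DGCat k) {X Y : A.Obj} (x : H A X Y) : hcomp A (hone A Y) x = x := by
  obtain ⟨f, rfl⟩ := hmk_surj A x
  rw [hone, hcomp_mk]
  congr 1
  exact Subtype.ext (A.one_comp f.1)

lemma hcomp_one (A : DGCat k) {X Y : A.Obj} (x : H A X Y) : hcomp A x (hone A X) = x := by
  obtain ⟨f, rfl⟩ := hmk_surj A x
  rw [hone, hcomp_mk]
  congr 1
  exact Subtype.ext (A.comp_one f.1)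

lemma hassoc (A : DGCat k) {V X Y W : A.Obj} (x : H A Y W) (y : H A X Y) (z : H A V X) :
    hcomp A (hcomp A x y) z = hcomp A x (hcomp A y z) := by
  obtain ⟨f, rfl⟩ := hmk_surj A x
  obtain ⟨g, rfl⟩ := hmk_surj A y
  obtain ⟨h, rfl⟩ := hmk_surj A z
  simp only [hcomp_mk]
  congr 1
  exact Subtype.ext (A.assoc (add_zero 0) (add_zero 0) (add_zero 0) (add_zero 0) f.1 g.1 h.1)

/-- a dg functor on cycles -/
def Zmap {A B : DGCat k} (F : DGFunctor A B) {X Y : A.Obj} :
    Z A X Y →ₗ[k] Z B (F.obj X) (F.obj Y) :=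
  (F.map : A.Hom X Y 0 →ₗ[k] _).restrict (fun f (hf : A.d (zero_add 1) f = 0) => by
    show B.d (zero_add 1) (F.map f) = 0
    rw [← F.map_d, hf, map_zero])

@[simp] lemma Zmap_coe {A B : DGCat k} (F : DGFunctor A B) {X Y : A.Obj} (f : Z A X Y) :
    (Zmap F f : B.Hom _ _ 0) = F.map f.1 := rfl

/-- a dg functor on `H⁰` -/
def Hmap {A B : DGCat k} (F : DGFunctor A B) {X Y : A.Obj} :
    H A X Y →ₗ[k] H B (F.obj X) (F.obj Y) :=
  hlift A (hmk B ∘ₗ Zmap F) (fun f hf => by
    obtain ⟨t, ht⟩ := mem_Bd.1 hf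
    refine (hmk_eq_zero B).2 (mem_Bd.2 ⟨F.map t, ?_⟩)
    rw [← F.map_d, ht]
    rfl)

lemma Hmap_mk {A B : DGCat k} (F : DGFunctor A B) {X Y : A.Obj} (f : Z A X Y) :
    Hmap F (hmk A f) = hmk B (Zmap F f) := rfl

lemma Hmap_hcomp {A B : DGCat k} (F : DGFunctor A B) {X Y W : A.Obj} (x : H A Y W)
    (y : H A X Y) : Hmap F (hcomp A x y) = hcomp B (Hmap F x) (Hmap F y) := by
  obtain ⟨f, rfl⟩ := hmk_surj A x
  obtain ⟨g, rfl⟩ := hmk_surj A y
  simp only [hcomp_mk, Hmap_mk]
  congr 1
  exact Subtype.ext (F.map_comp _ _ _)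

lemma Hmap_hone {A B : DGCat k} (F : DGFunctor A B) (X : A.Obj) :
    Hmap F (hone A X) = hone B (F.obj X) := by
  rw [hone, hone, Hmap_mk]
  congr 1
  exact Subtype.ext (F.map_one _)

/-! ## The cocentre -/

section U

variable (A : DGCat k)

open Classical in
/-- the relations `g f - f g` -/
def rels : Submodule k (⨁ X, H A X X) :=
  Submodule.span k {x | ∃ (X Y : A.Obj) (f : H A X Y) (g : H A Y X),
    x = DirectSum.lof k A.Obj (fun X => H A X X) X (hcomp A g f) -
      DirectSum.lof k A.Obj (fun X => H A X X) Y (hcomp A f g)}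

/-- the cocentre of `H⁰(A)` -/
def U0 : Type := (⨁ X, H A X X) ⧸ rels A

noncomputable instance : AddCommGroup (U0 A) := inferInstanceAs (AddCommGroup (_ ⧸ rels A))
noncomputable instance : Module k (U0 A) := inferInstanceAs (Module k (_ ⧸ rels A))

open Classical in
/-- the class of an endomorphism -/
noncomputable def cls (X : A.Obj) : H A X X →ₗ[k] U0 A :=
  (rels A).mkQ ∘ₗ DirectSum.lof k A.Obj (fun X => H A X X) X

lemma cls_trace {X Y : A.Obj} (f : H A X Y) (g : H A Y X) :
    cls A X (hcomp A g f) = cls A Y (hcomp A f g) := by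
  classical
  rw [← sub_eq_zero, cls, cls, LinearMap.comp_apply, LinearMap.comp_apply, ← map_sub]
  refine (Submodule.Quotient.mk_eq_zero _).2 (Submodule.subset_span ⟨X, Y, f, g, ?_⟩)
  congr!

open Classical in
/-- universal property of the cocentre -/
noncomputable def lift {W : Type} [AddCommGroup W] [Module k W] (φ : ∀ X, H A X X →ₗ[k] W)
    (hφ : ∀ (X Y : A.Obj) (f : H A X Y) (g : H A Y X),
      φ X (hcomp A g f) = φ Y (hcomp A f g)) : U0 A →ₗ[k] W :=
  (rels A).liftQ (DirectSum.toModule k A.Obj W φ) (by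
    rw [rels, Submodule.span_le]
    rintro x ⟨X, Y, f, g, rfl⟩
    simp only [SetLike.mem_coe, LinearMap.mem_ker, map_sub, sub_eq_zero]
    rw [DirectSum.toModule_lof, DirectSum.toModule_lof]
    exact hφ X Y f g)

lemma lift_cls {W : Type} [AddCommGroup W] [Module k W] (φ : ∀ X, H A X X →ₗ[k] W)
    (hφ : ∀ (X Y : A.Obj) (f : H A X Y) (g : H A Y X),
      φ X (hcomp A g f) = φ Y (hcomp A f g)) (X : A.Obj) (x : H A X X) :
    lift A φ hφ (cls A X x) = φ X x := by
  classical
  exact DirectSum.toModule_lof (M := fun X => H A X X) (φ := φ) k X x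

variable {A} in
lemma hom_ext' {W : Type} [AddCommGroup W] [Module k W] {φ ψ : U0 A →ₗ[k] W}
    (h : ∀ X x, φ (cls A X x) = ψ (cls A X x)) : φ = ψ := by
  classical
  refine Submodule.linearMap_qext _ ?_
  refine DirectSum.linearMap_ext _ fun X => ?_
  ext x
  exact h X _

end U

/-! ## Functoriality -/

/-- the induced map on cocentres -/
noncomputable def Umap {A B : DGCat k} (F : DGFunctor A B) : U0 A →ₗ[k] U0 B :=
  lift A (fun X => cls B (F.obj X) ∘ₗ Hmap F) (fun X Y f g => by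
    rw [LinearMap.comp_apply, LinearMap.comp_apply, Hmap_hcomp, Hmap_hcomp, cls_trace])

lemma Umap_cls {A B : DGCat k} (F : DGFunctor A B) (X : A.Obj) (x : H A X X) :
    Umap F (cls A X x) = cls B (F.obj X) (Hmap F x) :=
  lift_cls A _ _ X x

lemma Hmap_id {A : DGCat k} {X Y : A.Obj} (x : H A X Y) : Hmap (DGFunctor.refl A) x = x := by
  obtain ⟨f, rfl⟩ := hmk_surj A x
  rfl

lemma Hmap_comp {A B C : DGCat k} (F : DGFunctor A B) (G : DGFunctor B C) {X Y : A.Obj}
    (x : H A X Y) : Hmap (F.comp G) x = Hmap G (Hmap F x) := by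
  obtain ⟨f, rfl⟩ := hmk_surj A x
  rfl

variable (k) in
/-- the functor `U` -/
noncomputable def U : DGCat k ⥤ ModuleCat.{0} k where
  obj A := ModuleCat.of k (U0 A)
  map F := ModuleCat.ofHom (Umap F)
  map_id A := by
    refine ModuleCat.hom_ext (hom_ext' fun X x => ?_)
    exact (Umap_cls _ X x).trans (congrArg (cls A X) (Hmap_id x))
  map_comp {A B C} F G := by
    refine ModuleCat.hom_ext (hom_ext' fun X x => ?_)
    refine (Umap_cls _ X x).trans ?_
    refine (congrArg (cls C _) (Hmap_comp F G x)).trans ?_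
    exact ((congrArg (Umap G) (Umap_cls F X x)).trans (Umap_cls G _ _)).symm

/-! ## The value at the unit -/

/-- `H⁰` of the unit -/
def unitVal (X Y : (unit k).Obj) : H (unit k) X Y →ₗ[k] k :=
  hlift (unit k)
    { toFun := fun f => f.1.1
      map_add' := fun _ _ => rfl
      map_smul' := fun _ _ => rfl }
    (fun f hf => by
      obtain ⟨t, ht⟩ := mem_Bd.1 hf
      show f.1.1 = 0
      rw [← ht]
      rfl)

lemma unitVal_inj {X Y : (unit k).Obj} {x : H (unit k) X Y} (h : unitVal X Y x = 0) : x = 0 := by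
  obtain ⟨f, rfl⟩ := hmk_surj _ x
  have h1 : f = 0 := Subtype.ext (Subtype.ext h)
  rw [h1, map_zero]

lemma unitVal_hone (X : (unit k).Obj) : unitVal X X (hone (unit k) X) = 1 := rfl

lemma unitVal_hcomp {X Y W : (unit k).Obj} (x : H (unit k) Y W) (y : H (unit k) X Y) :
    unitVal X W (hcomp (unit k) x y) = unitVal Y W x * unitVal X Y y := by
  obtain ⟨f, rfl⟩ := hmk_surj _ x
  obtain ⟨g, rfl⟩ := hmk_surj _ y
  rfl

variable (k) in
/-- the trace on the unit -/
noncomputable def unitTr : U0 (unit k) →ₗ[k] k :=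
  lift (unit k) (fun X => unitVal X X) (fun X Y f g => by
    rw [unitVal_hcomp, unitVal_hcomp, mul_comm])

lemma unitTr_cls (X : (unit k).Obj) (x : H (unit k) X X) :
    unitTr k (cls (unit k) X x) = unitVal X X x :=
  lift_cls _ _ _ X x

variable (k) in
/-- `U(k) = k` -/
noncomputable def unitEquiv : U0 (unit k) ≃ₗ[k] k :=
  LinearEquiv.ofLinearMap (unitTr k)
    (LinearMap.toSpanSingleton k _ (cls (unit k) () (hone (unit k) ())))
    (by
      ext
      simp only [LinearMap.comp_apply, LinearMap.toSpanSingleton_apply, one_smul,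
        LinearMap.id_apply]
      exact (unitTr_cls _ _).trans (unitVal_hone _))
    (by
      refine hom_ext' fun X x => ?_
      have h : x = unitVal X X x • hone (unit k) X := by
        rw [← sub_eq_zero]
        refine unitVal_inj ?_
        rw [map_sub, map_smul, unitVal_hone, smul_eq_mul, mul_one, sub_self]
      simp only [LinearMap.comp_apply, LinearMap.toSpanSingleton_apply, LinearMap.id_apply]
      rw [unitTr_cls]
      refine (map_smul (cls (unit k) X) _ _).symm.trans ?_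
      exact congrArg _ h.symm)

/-! ## Morita invariance -/

section Morita

variable {A B : DGCat k} (F : DGFunctor A B) (hF : IsMoritaEquiv F)

include hF

lemma Hmap_inj {X Y : A.Obj} : Function.Injective (Hmap F : H A X Y →ₗ[k] _) := by
  rw [injective_iff_map_eq_zero]
  intro x hx
  obtain ⟨f, rfl⟩ := hmk_surj A x
  rw [Hmap_mk, hmk_eq_zero] at hx
  obtain ⟨t, ht⟩ := mem_Bd.1 hx
  obtain ⟨f', hf'⟩ := hF.inj (neg_add_cancel 1) (zero_add 1) f.1 t f.2 ht
  exact (hmk_eq_zero A).2 (mem_Bd.2 ⟨f', hf'⟩)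

lemma Hmap_surj {X Y : A.Obj} : Function.Surjective (Hmap F : H A X Y →ₗ[k] _) := by
  intro y
  obtain ⟨g, rfl⟩ := hmk_surj B y
  obtain ⟨f, t, hf, hg⟩ := hF.surj (neg_add_cancel 1) (zero_add 1) g.1 g.2
  refine ⟨hmk A ⟨f, hf⟩, ?_⟩
  rw [Hmap_mk, ← sub_eq_zero, ← map_sub, hmk_eq_zero]
  refine mem_Bd.2 ⟨-t, ?_⟩
  rw [map_neg]
  show _ = F.map f - g.1
  rw [hg]
  abel

/-- the inverse on `H⁰` -/
noncomputable def Hinv {X Y : A.Obj} : H B (F.obj X) (F.obj Y) →ₗ[k] H A X Y :=
  (LinearEquiv.ofBijective (Hmap F) ⟨Hmap_inj F hF, Hmap_surj F hF⟩).symm.toLinearMap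

lemma Hmap_Hinv {X Y : A.Obj} (y : H B (F.obj X) (F.obj Y)) : Hmap F (Hinv F hF y) = y :=
  LinearEquiv.apply_symm_apply
    (LinearEquiv.ofBijective (Hmap F) ⟨Hmap_inj F hF, Hmap_surj F hF⟩) y

lemma Hinv_Hmap {X Y : A.Obj} (x : H A X Y) : Hinv F hF (Hmap F x) = x :=
  LinearEquiv.symm_apply_apply
    (LinearEquiv.ofBijective (Hmap F) ⟨Hmap_inj F hF, Hmap_surj F hF⟩) x

lemma Hinv_hcomp {X Y W : A.Obj} (x : H B (F.obj Y) (F.obj W)) (y : H B (F.obj X) (F.obj Y)) :
    Hinv F hF (hcomp B x y) = hcomp A (Hinv F hF x) (Hinv F hF y) := by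
  apply Hmap_inj F hF
  rw [Hmap_hcomp, Hmap_Hinv, Hmap_Hinv, Hmap_Hinv]

/-- the trace on the image of `F` -/
noncomputable def tr (X : A.Obj) : H B (F.obj X) (F.obj X) →ₗ[k] U0 A := cls A X ∘ₗ Hinv F hF

lemma tr_trace {X Y : A.Obj} (f : H B (F.obj X) (F.obj Y)) (g : H B (F.obj Y) (F.obj X)) :
    tr F hF X (hcomp B g f) = tr F hF Y (hcomp B f g) := by
  rw [tr, tr, LinearMap.comp_apply, LinearMap.comp_apply, Hinv_hcomp, Hinv_hcomp, cls_trace]

lemma gen' (Y : B.Obj) : ∃ (m : ℕ) (X : Fin m → A.Obj) (i : ∀ j, H B (F.obj (X j)) Y)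
    (p : ∀ j, H B Y (F.obj (X j))), hone B Y = ∑ j, hcomp B (i j) (p j) := by
  obtain ⟨m, X, i, p, t, hi, hp, h⟩ := hF.gen Y
  refine ⟨m, X, fun j => hmk B ⟨i j, hi j⟩, fun j => hmk B ⟨p j, hp j⟩, ?_⟩
  simp only [hcomp_mk]
  rw [hone, ← map_sum, ← sub_eq_zero, ← map_sub, hmk_eq_zero]
  refine mem_Bd.2 ⟨t, ?_⟩
  rw [Submodule.coe_sub, AddSubmonoidClass.coe_finsetSum]
  simp only [zcomp_coe]
  rw [h]
  abel

/-- the number of objects needed to generate `Y` -/
noncomputable def gm (Y : B.Obj) : ℕ := (gen' F hF Y).choose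
/-- the objects -/
noncomputable def gX (Y : B.Obj) : Fin (gm F hF Y) → A.Obj := (gen' F hF Y).choose_spec.choose
/-- the inclusions -/
noncomputable def gi (Y : B.Obj) : ∀ j, H B (F.obj (gX F hF Y j)) Y :=
  (gen' F hF Y).choose_spec.choose_spec.choose
/-- the projections -/
noncomputable def gp (Y : B.Obj) : ∀ j, H B Y (F.obj (gX F hF Y j)) :=
  (gen' F hF Y).choose_spec.choose_spec.choose_spec.choose

lemma g_eq (Y : B.Obj) : hone B Y = ∑ j, hcomp B (gi F hF Y j) (gp F hF Y j) :=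
  (gen' F hF Y).choose_spec.choose_spec.choose_spec.choose_spec

/-- the extended trace -/
noncomputable def ext (Y : B.Obj) : H B Y Y →ₗ[k] U0 A :=
  ∑ j, tr F hF (gX F hF Y j) ∘ₗ (hcomp B (gp F hF Y j)) ∘ₗ (hcomp B).flip (gi F hF Y j)

lemma ext_apply (Y : B.Obj) (f : H B Y Y) :
    ext F hF Y f = ∑ j, tr F hF (gX F hF Y j)
      (hcomp B (gp F hF Y j) (hcomp B f (gi F hF Y j))) := by
  simp [ext]

/-- the key computation -/
lemma ext_eq {Y Y' : B.Obj} (f : H B Y Y') (g : H B Y' Y) :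
    ext F hF Y (hcomp B g f) = ∑ j, ∑ l, tr F hF (gX F hF Y j)
      (hcomp B (hcomp B (gp F hF Y j) (hcomp B g (gi F hF Y' l)))
        (hcomp B (gp F hF Y' l) (hcomp B f (gi F hF Y j)))) := by
  rw [ext_apply]
  refine Finset.sum_congr rfl fun j _ => ?_
  rw [← map_sum]
  congr 1
  have h : hcomp B g f = ∑ l, hcomp B (hcomp B g (gi F hF Y' l)) (hcomp B (gp F hF Y' l) f) := by
    calc hcomp B g f = hcomp B g (hcomp B (hone B Y') f) := by rw [hone_comp]
      _ = hcomp B g (hcomp B (∑ l, hcomp B (gi F hF Y' l) (gp F hF Y' l)) f) := by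
          rw [← g_eq]
      _ = _ := by
          simp only [map_sum, LinearMap.sum_apply, hassoc]
  rw [h]
  simp only [map_sum, LinearMap.sum_apply, hassoc]

lemma ext_trace {Y Y' : B.Obj} (f : H B Y Y') (g : H B Y' Y) :
    ext F hF Y (hcomp B g f) = ext F hF Y' (hcomp B f g) := by
  rw [ext_eq, ext_eq, Finset.sum_comm]
  refine Finset.sum_congr rfl fun l _ => Finset.sum_congr rfl fun j _ => ?_
  rw [tr_trace]

/-- the inverse of `U(F)` -/
noncomputable def Uinv : U0 B →ₗ[k] U0 A :=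
  lift B (ext F hF) (fun _ _ f g => ext_trace F hF f g)

lemma Uinv_Umap : Uinv F hF ∘ₗ Umap F = LinearMap.id := by
  refine hom_ext' fun X x => ?_
  rw [LinearMap.comp_apply, Umap_cls, Uinv, lift_cls, LinearMap.id_apply, ext_apply]
  calc ∑ j, tr F hF (gX F hF (F.obj X) j) (hcomp B (gp F hF (F.obj X) j)
        (hcomp B (Hmap F x) (gi F hF (F.obj X) j)))
      = ∑ j, tr F hF X (hcomp B (hcomp B (Hmap F x) (gi F hF (F.obj X) j))
          (gp F hF (F.obj X) j)) := by
        refine Finset.sum_congr rfl fun j _ => ?_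
        rw [tr_trace]
    _ = tr F hF X (hcomp B (Hmap F x) (hone B (F.obj X))) := by
        rw [g_eq F hF (F.obj X)]
        simp only [map_sum, hassoc]
    _ = cls A X x := by
        rw [hcomp_one, tr, LinearMap.comp_apply, Hinv_Hmap]

lemma Umap_Uinv : Umap F ∘ₗ Uinv F hF = LinearMap.id := by
  refine hom_ext' fun Y y => ?_
  rw [LinearMap.comp_apply, Uinv, lift_cls, LinearMap.id_apply, ext_apply, map_sum]
  calc ∑ j, Umap F (tr F hF (gX F hF Y j) (hcomp B (gp F hF Y j) (hcomp B y (gi F hF Y j))))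
      = ∑ j, cls B (F.obj (gX F hF Y j)) (hcomp B (gp F hF Y j) (hcomp B y (gi F hF Y j))) := by
        refine Finset.sum_congr rfl fun j _ => ?_
        rw [tr, LinearMap.comp_apply, Umap_cls, Hmap_Hinv]
    _ = ∑ j, cls B Y (hcomp B (hcomp B y (gi F hF Y j)) (gp F hF Y j)) := by
        refine Finset.sum_congr rfl fun j _ => ?_
        rw [cls_trace]
    _ = cls B Y (hcomp B y (hone B Y)) := by
        rw [g_eq F hF Y]
        simp only [map_sum, hassoc]
    _ = cls B Y y := by rw [hcomp_one]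

end Morita

/-! ## Coproducts -/

section Coproduct

variable (A B : DGCat k)

/-- left inclusion -/
def inl : DGFunctor A (disjUnion A B) where
  obj := Sum.inl
  map := LinearMap.id
  map_one _ := rfl
  map_comp _ _ _ := rfl
  map_d _ _ := rfl

/-- right inclusion -/
def inr : DGFunctor B (disjUnion A B) where
  obj := Sum.inr
  map := LinearMap.id
  map_one _ := rfl
  map_comp _ _ _ := rfl
  map_d _ _ := rfl

variable {A B} in
/-- functors out of the disjoint union -/
def desc {T : DGCat k} (F : DGFunctor A T) (G : DGFunctor B T) : DGFunctor (disjUnion A B) T where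
  obj := Sum.elim F.obj G.obj
  map {X Y n} := match X, Y with
    | .inl _, .inl _ => F.map
    | .inr _, .inr _ => G.map
    | .inl _, .inr _ => 0
    | .inr _, .inl _ => 0
  map_one
    | .inl X => F.map_one X
    | .inr X => G.map_one X
  map_comp {X Y W m n p} h g f := by
    rcases X with X | X <;> rcases Y with Y | Y <;> rcases W with W | W
    case inl.inl.inl => exact F.map_comp h g f
    case inr.inr.inr => exact G.map_comp h g f
    case inl.inr.inl =>
      exact (map_zero (F.map : A.Hom X W p →ₗ[k] _)).trans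
        (LinearMap.congr_fun (map_zero (T.comp h)) _).symm
    case inr.inl.inr =>
      exact (map_zero (G.map : B.Hom X W p →ₗ[k] _)).trans
        (LinearMap.congr_fun (map_zero (T.comp h)) _).symm
    all_goals first
      | exact (LinearMap.congr_fun (map_zero (T.comp h)) _).symm
      | exact (map_zero (T.comp h _)).symm
  map_d {X Y n m} h f := by
    rcases X with X | X <;> rcases Y with Y | Y
    case inl.inl => exact F.map_d h f
    case inr.inr => exact G.map_d h f
    all_goals exact (map_zero (T.d h)).symm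

variable {A B} in
lemma inl_desc {T : DGCat k} (F : DGFunctor A T) (G : DGFunctor B T) :
    (inl A B).comp (desc F G) = F := rfl

variable {A B} in
lemma inr_desc {T : DGCat k} (F : DGFunctor A T) (G : DGFunctor B T) :
    (inr A B).comp (desc F G) = G := rfl

variable {A B} in
lemma desc_eta {T : DGCat k} (m : DGFunctor (disjUnion A B) T) :
    m = desc ((inl A B).comp m) ((inr A B).comp m) := by
  obtain ⟨o, mp, h1, h2, h3⟩ := m
  obtain ⟨a, b, rfl⟩ : ∃ a b, o = Sum.elim a b := ⟨_, _, (Sum.elim_comp_inl_inr o).symm⟩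
  refine DGFunctor.ext rfl (heq_of_eq ?_)
  funext X Y n
  ext f
  rcases X with X | X <;> rcases Y with Y | Y
  · rfl
  · exact map_zero (mp : (disjUnion A B).Hom (Sum.inl X) (Sum.inr Y) n →ₗ[k] _)
  · exact map_zero (mp : (disjUnion A B).Hom (Sum.inr X) (Sum.inl Y) n →ₗ[k] _)
  · rfl

/-- left inclusion as a morphism -/
def inl' : A ⟶ disjUnion A B := inl A B

/-- right inclusion as a morphism -/
def inr' : B ⟶ disjUnion A B := inr A B

/-- `A ⊔ B` is the coproduct -/
def isColimitCofan : IsColimit (BinaryCofan.mk (inl' A B) (inr' A B)) :=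
  BinaryCofan.IsColimit.mk _ (fun F G => desc F G) (fun F G => inl_desc F G)
    (fun F G => inr_desc F G) (fun F G m h1 h2 => by
      subst h1 h2
      exact desc_eta m)

instance : HasBinaryCoproduct A B := ⟨⟨⟨_, isColimitCofan A B⟩⟩⟩

variable (k) in
/-- the empty dg category is initial -/
def isInitialEmpty : IsInitial (empty k) :=
  IsInitial.ofUniqueHom (fun T => ({
    obj := fun X => X.elim
    map := fun {X} => X.elim
    map_one := fun X => X.elim
    map_comp := fun {X} => X.elim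
    map_d := fun {X} => X.elim } : DGFunctor (empty k) T)) (fun T m => by
      obtain ⟨o, mp, h1, h2, h3⟩ := m
      obtain rfl : o = fun X => X.elim := funext fun X => X.elim
      refine DGFunctor.ext rfl (heq_of_eq ?_)
      funext X
      exact X.elim)

instance : HasInitial (DGCat k) := (isInitialEmpty k).hasInitial

instance : HasBinaryCoproducts (DGCat k) := hasBinaryCoproducts_of_hasColimit_pair _

instance : HasFiniteCoproducts (DGCat k) := hasFiniteCoproducts_of_has_binary_and_initial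

lemma inl_inr_zero {X : A.Obj} {Y : B.Obj}
    (f : H (disjUnion A B) (Sum.inl X) (Sum.inr Y)) : f = 0 := by
  obtain ⟨f, rfl⟩ := hmk_surj _ f
  have : f = 0 := Subtype.ext rfl
  rw [this, map_zero]

lemma inr_inl_zero {X : B.Obj} {Y : A.Obj}
    (f : H (disjUnion A B) (Sum.inr X) (Sum.inl Y)) : f = 0 := by
  obtain ⟨f, rfl⟩ := hmk_surj _ f
  have : f = 0 := Subtype.ext rfl
  rw [this, map_zero]

/-- on the left part -/
def invl {X Y : A.Obj} : H (disjUnion A B) (Sum.inl X) (Sum.inl Y) →ₗ[k] H A X Y :=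
  hlift (disjUnion A B) (X := Sum.inl X) (Y := Sum.inl Y) (hmk A (X := X) (Y := Y))
    (fun _ hf => (hmk_eq_zero A).2 hf)

/-- on the right part -/
def invr {X Y : B.Obj} : H (disjUnion A B) (Sum.inr X) (Sum.inr Y) →ₗ[k] H B X Y :=
  hlift (disjUnion A B) (X := Sum.inr X) (Y := Sum.inr Y) (hmk B (X := X) (Y := Y))
    (fun _ hf => (hmk_eq_zero B).2 hf)

lemma invl_hcomp {X Y W : A.Obj} (g : H (disjUnion A B) (Sum.inl Y) (Sum.inl W))
    (f : H (disjUnion A B) (Sum.inl X) (Sum.inl Y)) :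
    invl A B (hcomp (disjUnion A B) g f) = hcomp A (invl A B g) (invl A B f) := by
  obtain ⟨f, rfl⟩ := hmk_surj _ f
  obtain ⟨g, rfl⟩ := hmk_surj _ g
  rfl

lemma invr_hcomp {X Y W : B.Obj} (g : H (disjUnion A B) (Sum.inr Y) (Sum.inr W))
    (f : H (disjUnion A B) (Sum.inr X) (Sum.inr Y)) :
    invr A B (hcomp (disjUnion A B) g f) = hcomp B (invr A B g) (invr A B f) := by
  obtain ⟨f, rfl⟩ := hmk_surj _ f
  obtain ⟨g, rfl⟩ := hmk_surj _ g
  rfl

lemma invl_inl {X Y : A.Obj} (x : H A X Y) :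
    invl A B (Hmap (inl A B) x : H (disjUnion A B) (Sum.inl X) (Sum.inl Y)) = x := by
  obtain ⟨f, rfl⟩ := hmk_surj _ x
  rfl

lemma invr_inr {X Y : B.Obj} (x : H B X Y) :
    invr A B (Hmap (inr A B) x : H (disjUnion A B) (Sum.inr X) (Sum.inr Y)) = x := by
  obtain ⟨f, rfl⟩ := hmk_surj _ x
  rfl

lemma inl_invl {X Y : A.Obj} (x : H (disjUnion A B) (Sum.inl X) (Sum.inl Y)) :
    (Hmap (inl A B) (invl A B x) : H (disjUnion A B) (Sum.inl X) (Sum.inl Y)) = x := by
  obtain ⟨f, rfl⟩ := hmk_surj _ x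
  rfl

lemma inr_invr {X Y : B.Obj} (x : H (disjUnion A B) (Sum.inr X) (Sum.inr Y)) :
    (Hmap (inr A B) (invr A B x) : H (disjUnion A B) (Sum.inr X) (Sum.inr Y)) = x := by
  obtain ⟨f, rfl⟩ := hmk_surj _ x
  rfl

variable {A B} in
/-- maps out of `U(A ⊔ B)` -/
noncomputable def udesc {W : Type} [AddCommGroup W] [Module k W] (F : U0 A →ₗ[k] W)
    (G : U0 B →ₗ[k] W) : U0 (disjUnion A B) →ₗ[k] W :=
  lift (disjUnion A B)
    (fun X => match X with
      | .inl X => F ∘ₗ cls A X ∘ₗ invl A B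
      | .inr X => G ∘ₗ cls B X ∘ₗ invr A B)
    (fun X Y f g => by
      rcases X with X | X <;> rcases Y with Y | Y
      · show F (cls A X (invl A B _)) = F (cls A Y (invl A B _))
        rw [invl_hcomp, invl_hcomp, cls_trace]
      · rw [inl_inr_zero A B f, map_zero, map_zero, map_zero, LinearMap.zero_apply, map_zero]
      · rw [inr_inl_zero A B f, map_zero, map_zero, map_zero, LinearMap.zero_apply, map_zero]
      · show G (cls B X (invr A B _)) = G (cls B Y (invr A B _))
        rw [invr_hcomp, invr_hcomp, cls_trace])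

variable {A B} in
lemma udesc_inl {W : Type} [AddCommGroup W] [Module k W] (F : U0 A →ₗ[k] W)
    (G : U0 B →ₗ[k] W) : udesc F G ∘ₗ Umap (inl A B) = F := by
  refine hom_ext' fun X x => ?_
  rw [LinearMap.comp_apply, Umap_cls, udesc, lift_cls]
  exact congrArg (fun z => F (cls A X z)) (invl_inl A B x)

variable {A B} in
lemma udesc_inr {W : Type} [AddCommGroup W] [Module k W] (F : U0 A →ₗ[k] W)
    (G : U0 B →ₗ[k] W) : udesc F G ∘ₗ Umap (inr A B) = G := by
  refine hom_ext' fun X x => ?_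
  rw [LinearMap.comp_apply, Umap_cls, udesc, lift_cls]
  exact congrArg (fun z => G (cls B X z)) (invr_inr A B x)

variable {A B} in
lemma udesc_ext {W : Type} [AddCommGroup W] [Module k W] {F G : U0 (disjUnion A B) →ₗ[k] W}
    (h1 : F ∘ₗ Umap (inl A B) = G ∘ₗ Umap (inl A B))
    (h2 : F ∘ₗ Umap (inr A B) = G ∘ₗ Umap (inr A B)) : F = G := by
  refine hom_ext' fun X x => ?_
  rcases X with X | X
  · have h := LinearMap.congr_fun h1 (cls A X (invl A B x))
    rw [LinearMap.comp_apply, LinearMap.comp_apply, Umap_cls] at h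
    have h3 := inl_invl A B x
    exact (congrArg (fun z => F (cls (disjUnion A B) (Sum.inl X) z)) h3).symm.trans
      (h.trans (congrArg (fun z => G (cls (disjUnion A B) (Sum.inl X) z)) h3))
  · have h := LinearMap.congr_fun h2 (cls B X (invr A B x))
    rw [LinearMap.comp_apply, LinearMap.comp_apply, Umap_cls] at h
    have h3 := inr_invr A B x
    exact (congrArg (fun z => F (cls (disjUnion A B) (Sum.inr X) z)) h3).symm.trans
      (h.trans (congrArg (fun z => G (cls (disjUnion A B) (Sum.inr X) z)) h3))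

/-- `U` preserves binary coproducts -/
noncomputable def isColimitUCofan :
    IsColimit (BinaryCofan.mk ((U k).map (inl' A B)) ((U k).map (inr' A B))) :=
  BinaryCofan.IsColimit.mk _ (fun F G => ModuleCat.ofHom (udesc F.hom G.hom))
    (fun F G => ModuleCat.hom_ext (udesc_inl F.hom G.hom))
    (fun F G => ModuleCat.hom_ext (udesc_inr F.hom G.hom))
    (fun F G m h1 h2 => by
      subst h1 h2
      refine ModuleCat.hom_ext (udesc_ext ?_ ?_)
      · exact (udesc_inl _ _).symm
      · exact (udesc_inr _ _).symm)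

instance : PreservesColimit (pair A B) (U k) :=
  preservesColimit_of_preserves_colimit_cocone (isColimitCofan A B)
    ((isColimitMapCoconeBinaryCofanEquiv (U k) _ _).symm (isColimitUCofan A B))

instance : PreservesColimitsOfShape (Discrete WalkingPair) (U k) where
  preservesColimit {K} := preservesColimit_of_iso_diagram (U k) (diagramIsoPair K).symm

instance : Subsingleton (U0 (empty k)) := by
  refine ⟨fun x y => ?_⟩
  have h : (LinearMap.id : U0 (empty k) →ₗ[k] U0 (empty k)) = 0 :=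
    hom_ext' fun X => X.elim
  rw [← LinearMap.id_apply (R := k) x, ← LinearMap.id_apply (R := k) y, h]
  rfl

/-- `U` preserves the initial object -/
noncomputable def isInitialU : IsInitial ((U k).obj (empty k)) :=
  IsInitial.ofUniqueHom (fun _ => ModuleCat.ofHom 0) (fun T m => by
    refine ModuleCat.hom_ext (hom_ext' fun X => X.elim))

instance : PreservesColimit (Functor.empty.{0} (DGCat k)) (U k) :=
  preservesColimit_of_preserves_colimit_cocone (isInitialEmpty k)
    ((isColimitMapCoconeEmptyCoconeEquiv (U k) _).symm isInitialU)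

instance : PreservesColimitsOfShape (Discrete.{0} PEmpty) (U k) :=
  preservesColimitsOfShape_pempty_of_preservesInitial (U k)

instance : PreservesFiniteCoproducts (U k) where
  preserves n := preservesShape_fin_of_preserves_binary_and_initial (U k) n

end Coproduct

/-- Over every field `k` there is a functor from small dg categories to `k`-vector spaces which
preserves finite coproducts, inverts the Morita equivalences and sends the unit to the unit. -/
theorem exists_additive_invariant_field (k : Type) [Field k] :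
    ∃ U : DGCat k ⥤ ModuleCat.{0} k, Nonempty (PreservesFiniteCoproducts U) ∧
      (∀ {A B : DGCat k} (F : A ⟶ B), IsMoritaEquiv F → IsIso (U.map F)) ∧
      Nonempty (U.obj (unit k) ≅ 𝟙_ (ModuleCat k)) := by
  refine ⟨U k, ⟨inferInstance⟩, fun {A B} F hF => ?_, ⟨(unitEquiv k).toModuleIso⟩⟩
  refine ⟨ModuleCat.ofHom (Uinv F hF), ?_, ?_⟩
  · exact ModuleCat.hom_ext (Uinv_Umap F hF)
  · exact ModuleCat.hom_ext (Umap_Uinv F hF)

theorem exists_additive_invariant :
    ∃ U : DGCat ℚ ⥤ ModuleCat.{0} ℚ, Nonempty (PreservesFiniteCoproducts U) ∧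
      (∀ {A B : DGCat ℚ} (F : A ⟶ B), IsMoritaEquiv F → IsIso (U.map F)) ∧
      Nonempty (U.obj (unit ℚ) ≅ 𝟙_ (ModuleCat ℚ)) :=
  exists_additive_invariant_field ℚ

end Pool.Agent.Helper86.NCM
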